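import Pool.Agent.K1H27.PL.Stm
import Pool.Agent.K1H28.VM.PAIR

/-! Project PL, pieces SCHA and SCHB. -/

set_option autoImplicit false

namespace Pool.Agent.K1H39.PL

open MeasureTheory Set Metric Filter Topology
open scoped ENNReal NNReal
open Pool.Agent.K1H27.VM (HasHyp IsInt IsMul HT)
open Pool.Agent.K1H27.PL
open Pool.Agent.K1H28.VM (lp_meas norm_eq t_PAIR)

theorem enorm_rpow {S : Type} [MeasurableSpace S] {μ : Measure S} [SigmaFinite μ]
    {p : ℝ≥0∞} [Fact (1 ≤ p)]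
    (hp0 : 0 < p.toReal) (hp : p ≠ ∞) (f : Lp ℂ p μ) :
    ‖f‖ₑ ^ p.toReal = ∫⁻ s, ‖f s‖ₑ ^ p.toReal ∂μ := by
  rw [Lp.enorm_def, norm_eq hp0 hp, ← ENNReal.rpow_mul, one_div, inv_mul_cancel₀ hp0.ne',
    ENNReal.rpow_one]

/-- Tonelli. -/
theorem tonelli {S : Type} [MeasurableSpace S] {μ : Measure S} [SigmaFinite μ] {P : ℝ}
    {φ : S → ℂ} (hφ : Measurable φ) {m : ℂ → ℂ} (hm : Measurable m) (R : ℝ) (κ : ℝ≥0∞)
    (hκ : ∀ ζ : ℂ, ∫⁻ z in ball (0:ℂ) R, ‖m (z - ζ)‖ₑ ^ P ≤ κ) {x : S → ℂ} (hx : Measurable x) :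
    ∫⁻ z in ball (0:ℂ) R, ∫⁻ s, ‖m (z - φ s)‖ₑ ^ P * ‖x s‖ₑ ^ P ∂μ ≤
      κ * ∫⁻ s, ‖x s‖ₑ ^ P ∂μ := by
  have h1 : Measurable fun y : ℂ × S => ‖m (y.1 - φ y.2)‖ₑ ^ P :=
    ((hm.comp (measurable_fst.sub (hφ.comp measurable_snd))).enorm).pow_const _
  have h2 : Measurable fun y : ℂ × S => ‖x y.2‖ₑ ^ P :=
    ((hx.comp measurable_snd).enorm).pow_const _
  have hmeas : Measurable fun y : ℂ × S => ‖m (y.1 - φ y.2)‖ₑ ^ P * ‖x y.2‖ₑ ^ P := h1.mul h2
  rw [lintegral_lintegral_swap hmeas.aemeasurable, ← lintegral_const_mul _ (hx.enorm.pow_const _)]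
  refine lintegral_mono fun s => ?_
  have h3 : Measurable fun z : ℂ => ‖m (z - φ s)‖ₑ ^ P :=
    ((hm.comp (measurable_id.sub_const _)).enorm).pow_const _
  show ∫⁻ z in ball (0:ℂ) R, ‖m (z - φ s)‖ₑ ^ P * ‖x s‖ₑ ^ P ≤ κ * ‖x s‖ₑ ^ P
  rw [lintegral_mul_const _ h3]
  exact mul_le_mul_left (hκ (φ s)) _

theorem t_SCHA : S_SCHA := by
  intro S _ μ _ p _ hp φ hφ m hm M hM R κ hκ x
  have hp1 : (1 : ℝ≥0∞) ≤ p := Fact.out
  have hp0 : 0 < p.toReal := ENNReal.toReal_pos (by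
    intro h
    rw [h] at hp1
    exact absurd hp1 (by norm_num)) hp
  have e : ∀ z, ‖M z x‖ₑ ^ p.toReal =
      ∫⁻ s, ‖m (z - φ s)‖ₑ ^ p.toReal * ‖x s‖ₑ ^ p.toReal ∂μ := by
    intro z
    rw [enorm_rpow hp0 hp]
    refine lintegral_congr_ae ?_
    filter_upwards [hM z x] with s hs
    rw [hs, enorm_mul, ENNReal.mul_rpow_of_nonneg _ _ hp0.le]
  simp only [e]
  rw [enorm_rpow hp0 hp]
  exact tonelli hφ hm R κ hκ (lp_meas x)

theorem t_SCHB : S_SCHB := by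
  intro S _ μ _ p q _ _ hpq hp hq φ hφ hb m hm M hMc hM R κ hκ0 hκ A hA hAR w hw hwp
  have hc := ENNReal.HolderConjugate.toReal_of_ne_top (p := p) (q := q) hp hq
  have hp0 := hc.pos
  have hq0 := hc.symm.pos
  have hp1 : (1 : ℝ≥0∞) ≤ p := Fact.out
  have hpne : p ≠ 0 := by
    intro h
    rw [h] at hp1
    exact absurd hp1 (by norm_num)
  have hfin : IsFiniteMeasure (volume.restrict A) :=
    ⟨by
      rw [Measure.restrict_apply_univ]
      exact (measure_mono hAR).trans_lt measure_ball_lt_top⟩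
  -- w is integrable
  have hwL : MemLp w p (volume.restrict A) := by
    refine ⟨hw, ?_⟩
    rw [eLpNorm_eq_lintegral_rpow_enorm_toReal hpne hp]
    exact ENNReal.rpow_lt_top_of_nonneg (by positivity) hwp
  have hwi : Integrable w (volume.restrict A) := hwL.integrable hp1
  -- M is bounded
  obtain ⟨C, hC⟩ : ∃ C : ℝ, ∀ z ∈ closedBall (0 : ℂ) R, ‖M z‖ ≤ C := by
    have := (isCompact_closedBall (0 : ℂ) R).exists_bound_of_continuousOn (f := M)
      hMc.continuousOn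
    exact this
  have hmeas : AEStronglyMeasurable (fun z => M z (w z)) (volume.restrict A) :=
    isBoundedBilinearMap_apply.continuous.comp_aestronglyMeasurable
      (hMc.aestronglyMeasurable.prodMk hw)
  have hint : Integrable (fun z => M z (w z)) (volume.restrict A) := by
    refine (hwi.norm.const_mul C).mono' hmeas ?_
    filter_upwards [ae_restrict_mem hA] with z hz
    refine (M z).le_opNorm_of_le le_rfl |>.trans ?_
    exact mul_le_mul_of_nonneg_right (hC z (ball_subset_closedBall (hAR hz))) (norm_nonneg _)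
  refine ⟨hint, ?_⟩
  obtain ⟨⟨B, hB, -, hdual⟩, -⟩ := t_PAIR S μ p q hpq hp hq
  obtain ⟨g, hg1, hg⟩ := hdual (∫ z in A, M z (w z))
  have hgm := lp_meas g
  -- the function G
  set G : ℂ → ℝ≥0∞ := fun z => (∫⁻ s, ‖m (z - φ s)‖ₑ ^ q.toReal * ‖g s‖ₑ ^ q.toReal ∂μ) ^
    (1 / q.toReal) with hG
  have hGm : Measurable G := by
    refine Measurable.pow_const ?_ _
    have h1 : Measurable fun y : ℂ × S => ‖m (y.1 - φ y.2)‖ₑ ^ q.toReal :=
      ((hm.measurable.comp (measurable_fst.sub (hφ.comp measurable_snd))).enorm).pow_const _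
    have h2 : Measurable fun y : ℂ × S => ‖g y.2‖ₑ ^ q.toReal :=
      ((hgm.comp measurable_snd).enorm).pow_const _
    exact (h1.mul h2).lintegral_prod_right'
  have hHol : ∀ z, ‖B g (M z (w z))‖ₑ ≤ G z * ‖w z‖ₑ := by
    intro z
    rw [hB]
    refine (enorm_integral_le_lintegral_enorm _).trans ?_
    have e1 : ∫⁻ s, ‖g s * M z (w z) s‖ₑ ∂μ =
        ∫⁻ s, ((fun s => ‖m (z - φ s)‖ₑ * ‖g s‖ₑ) * (fun s => ‖w z s‖ₑ)) s ∂μ := by
      refine lintegral_congr_ae ?_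
      filter_upwards [hM z (w z)] with s hs
      rw [hs, enorm_mul, enorm_mul, Pi.mul_apply]
      ring
    rw [e1]
    have hmz : Measurable fun s => m (z - φ s) := hm.measurable.comp (measurable_const.sub hφ)
    refine (ENNReal.lintegral_mul_le_Lp_mul_Lq μ hc.symm
      (f := fun s => ‖m (z - φ s)‖ₑ * ‖g s‖ₑ)
      ((hmz.enorm.mul hgm.enorm).aemeasurable) (lp_meas (w z)).enorm.aemeasurable).trans ?_
    apply le_of_eq
    have e2 : ∀ s, (‖m (z - φ s)‖ₑ * ‖g s‖ₑ) ^ q.toReal =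
        ‖m (z - φ s)‖ₑ ^ q.toReal * ‖g s‖ₑ ^ q.toReal := fun s =>
      ENNReal.mul_rpow_of_nonneg _ _ hq0.le
    simp only [e2, hG]
    congr 1
    rw [← enorm_rpow hp0 hp, ← ENNReal.rpow_mul, one_div, mul_inv_cancel₀ hp0.ne',
      ENNReal.rpow_one]
  have hI : ‖∫ z in A, M z (w z)‖ₑ = ‖B g (∫ z in A, M z (w z))‖ₑ := by
    rw [hg]
    rw [← ofReal_norm, ← ofReal_norm]
    congr 1
    rw [Complex.norm_real, norm_norm]
  rw [hI, ← ContinuousLinearMap.integral_comp_comm _ hint]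
  refine (enorm_integral_le_lintegral_enorm _).trans ?_
  refine (lintegral_mono fun z => hHol z).trans ?_
  have h5 := ENNReal.lintegral_mul_le_Lp_mul_Lq (volume.restrict A) hc.symm
    (f := G) (g := fun z => ‖w z‖ₑ) hGm.aemeasurable hw.enorm
  refine le_trans (le_of_eq rfl) (h5.trans ?_)
  refine mul_le_mul_left ?_ _
  refine ENNReal.rpow_le_rpow ?_ (by positivity)
  have e3 : ∀ z, G z ^ q.toReal = ∫⁻ s, ‖m (z - φ s)‖ₑ ^ q.toReal * ‖g s‖ₑ ^ q.toReal ∂μ := by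
    intro z
    simp only [hG]
    rw [← ENNReal.rpow_mul, one_div, inv_mul_cancel₀ hq0.ne', ENNReal.rpow_one]
  simp only [e3]
  calc ∫⁻ z in A, ∫⁻ s, ‖m (z - φ s)‖ₑ ^ q.toReal * ‖g s‖ₑ ^ q.toReal ∂μ
      ≤ ∫⁻ z in ball (0:ℂ) R, ∫⁻ s, ‖m (z - φ s)‖ₑ ^ q.toReal * ‖g s‖ₑ ^ q.toReal ∂μ :=
        lintegral_mono_set hAR
    _ ≤ κ * ∫⁻ s, ‖g s‖ₑ ^ q.toReal ∂μ := tonelli hφ hm.measurable R κ hκ hgm
    _ ≤ κ * 1 := by
        refine mul_le_mul_right ?_ _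
        rw [← enorm_rpow hq0 hq]
        have : ‖g‖ₑ ≤ 1 := by
          rw [← ofReal_norm]
          exact ENNReal.ofReal_le_one.2 hg1
        exact ENNReal.rpow_le_one this hq0.le
    _ = κ := mul_one _

end Pool.Agent.K1H39.PL
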