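import Pool.Agent.K1H49.PL.Stm

/-!
# Project PL: the SOP2 tree
-/

set_option autoImplicit false

namespace Pool.Agent.K1H39.PL

open Pool.Agent.K1H49.PL

universe u

variable {M : Type u}

theorem D_list (Y : Sys M) {α I : Type} (L : List I) (S : I → Set (α → M))
    (hS : ∀ i, Y.D (S i)) : Y.D {v : α → M | ∀ i ∈ L, v ∈ S i} := by
  induction L with
  | nil =>
    have h : {v : α → M | ∀ i ∈ ([] : List I), v ∈ S i} = Set.univ := by
      ext v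
      simp
    rw [h]
    exact Y.univ
  | cons i L ih =>
    have h : {v : α → M | ∀ j ∈ i :: L, v ∈ S j} = S i ∩ {v | ∀ j ∈ L, v ∈ S j} := by
      ext v
      simp
    rw [h]
    exact Y.inter (hS i) ih

section

variable {X V Z : Type} (β : (X → M) → (V → M) → Prop) (α : (Z → M) → (V → M) → Prop)
  (γ : (X → M) → (Z → M) → Prop)

/-- the path condition -/
def F1 (σ : Nd) : Set (Nd × (V ⊕ Z) → M) :=
  {v | ∃ x : X → M, ∀ τ, τ <+: σ →
    β x (fun i => v (τ, Sum.inl i)) ∧ γ x (fun i => v (τ, Sum.inr i))}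

/-- the condition on incomparable pairs -/
def F2 (μ ν : Nd) : Set (Nd × (V ⊕ Z) → M) :=
  {v | α (fun i => v (ν, Sum.inr i)) (fun i => v (μ, Sum.inl i))}

theorem D_F2 (Y : Sys M) (hα : Y.D2 α) (μ ν : Nd) : Y.D (F2 α μ ν) := by
  exact Y.pull (fun i : Z ⊕ V => Sum.elim (fun j => ((ν, Sum.inr j) : Nd × (V ⊕ Z)))
    (fun j => ((μ, Sum.inl j) : Nd × (V ⊕ Z))) i) hα

theorem D_F1 (Y : Sys M) [Finite X] (hβ : Y.D2 β) (hγ : Y.D2 γ) (σ : Nd) :
    Y.D (F1 β γ σ) := by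
  have h1 : ∀ τ : Nd, Y.D {u : (Nd × (V ⊕ Z)) ⊕ X → M |
      β (fun i => u (Sum.inr i)) (fun i => u (Sum.inl (τ, Sum.inl i)))} := fun τ =>
    Y.pull (fun i : X ⊕ V => Sum.elim (fun j => (Sum.inr j : (Nd × (V ⊕ Z)) ⊕ X))
      (fun j => (Sum.inl (τ, Sum.inl j) : (Nd × (V ⊕ Z)) ⊕ X)) i) hβ
  have h2 : ∀ τ : Nd, Y.D {u : (Nd × (V ⊕ Z)) ⊕ X → M |
      γ (fun i => u (Sum.inr i)) (fun i => u (Sum.inl (τ, Sum.inr i)))} := fun τ =>
    Y.pull (fun i : X ⊕ Z => Sum.elim (fun j => (Sum.inr j : (Nd × (V ⊕ Z)) ⊕ X))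
      (fun j => (Sum.inl (τ, Sum.inr j) : (Nd × (V ⊕ Z)) ⊕ X)) i) hγ
  have h3 := Y.proj (D_list Y σ.inits (fun τ : Nd => {u : (Nd × (V ⊕ Z)) ⊕ X → M |
      β (fun i => u (Sum.inr i)) (fun i => u (Sum.inl (τ, Sum.inl i)))} ∩
      {u : (Nd × (V ⊕ Z)) ⊕ X → M |
      γ (fun i => u (Sum.inr i)) (fun i => u (Sum.inl (τ, Sum.inr i)))})
      (fun τ => Y.inter (h1 τ) (h2 τ)))
  have h4 : {v : Nd × (V ⊕ Z) → M | ∃ w : X → M, Sum.elim v w ∈
      {v : (Nd × (V ⊕ Z)) ⊕ X → M | ∀ i ∈ σ.inits, v ∈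
        (fun τ : Nd => {u : (Nd × (V ⊕ Z)) ⊕ X → M |
      β (fun i => u (Sum.inr i)) (fun i => u (Sum.inl (τ, Sum.inl i)))} ∩
      {u : (Nd × (V ⊕ Z)) ⊕ X → M |
      γ (fun i => u (Sum.inr i)) (fun i => u (Sum.inl (τ, Sum.inr i)))}) i}} = F1 β γ σ := by
    ext v
    constructor
    · rintro ⟨w, hw⟩
      refine ⟨w, fun τ hτ => ?_⟩
      have := hw τ ((List.mem_inits _ _).2 hτ)
      exact ⟨this.1, this.2⟩
    · rintro ⟨w, hw⟩
      refine ⟨w, fun τ hτ => ?_⟩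
      have := hw τ ((List.mem_inits _ _).1 hτ)
      exact ⟨this.1, this.2⟩
  rw [← h4]
  exact h3

/-- the finite trees -/
theorem fin_tree (hMW : ∀ w, MW β α γ w) (n : ℕ) : ∃ v : Nd × (V ⊕ Z) → M,
    (∀ σ : Nd, σ.length ≤ n → v ∈ F1 β γ σ) ∧
    ∀ μ ν : Nd, μ.length ≤ n → ν.length ≤ n → Inc μ ν → v ∈ F2 α μ ν := by
  classical
  have : Finite (LN n) := by
    have h : (Set.range (fun p : (Σ k : Fin (n + 1), (Fin k → Bool)) =>
      List.ofFn p.2)).Finite := Set.finite_range _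
    refine Set.Finite.subset h ?_ |>.to_subtype
    intro η hη
    have hη' : η.length ≤ n := hη
    exact ⟨⟨⟨η.length, by omega⟩, fun i => η.get i⟩, List.ofFn_get η⟩
  set φ : LN n ≃ Fin (Nat.card (LN n)) := Finite.equivFin (LN n) with hφ
  obtain ⟨a, x, z, h1, h2, h3⟩ := hMW (Nat.card (LN n))
  let B : Nd → Fin (Nat.card (LN n)) → Bool := fun τ i => decide (Inc (φ.symm i).1 τ)
  let b : Nd → V → M := fun τ => if h : τ.length ≤ n then a (φ ⟨τ, h⟩)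
    else a (φ ⟨[], Nat.zero_le _⟩)
  refine ⟨fun p => Sum.elim (b p.1) (z (B p.1)) p.2, ?_, ?_⟩
  · intro σ hσ
    refine ⟨x (fun i => decide ((φ.symm i).1 <+: σ)), fun τ hτ => ?_⟩
    have hτn : τ.length ≤ n := hτ.length_le.trans hσ
    constructor
    · have hb : (fun i => Sum.elim (b τ) (z (B τ)) (Sum.inl i)) = a (φ ⟨τ, hτn⟩) := by
        funext i
        simp only [Sum.elim_inl, b, dif_pos hτn]
      show β _ (fun i => Sum.elim (b τ) (z (B τ)) (Sum.inl i))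
      rw [hb]
      apply h1
      simpa using hτ
    · show γ _ (z (B τ))
      apply h3
      rintro i ⟨c1, c2⟩
      have c1' : (φ.symm i).1 <+: σ := by simpa using c1
      have c2' : Inc (φ.symm i).1 τ := by simpa [B] using c2
      rcases List.prefix_or_prefix_of_prefix c1' hτ with h | h
      · exact c2'.1 h
      · exact c2'.2 h
  · intro μ ν hμ hν hI
    show α (z (B ν)) (fun i => Sum.elim (b μ) (z (B μ)) (Sum.inl i))
    have hb : (fun i => Sum.elim (b μ) (z (B μ)) (Sum.inl i)) = a (φ ⟨μ, hμ⟩) := by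
      funext i
      simp only [Sum.elim_inl, b, dif_pos hμ]
    rw [hb]
    apply h2
    simpa [B] using hI

end

theorem t_TREE : S_TREE.{u} := by
  intro M Y X V Z _ _ _ β α γ hβ hα hγ hinc hMW
  refine ⟨?_, ?_⟩
  · rintro b b' hP ⟨w, ⟨h1, -⟩, ⟨-, h2⟩⟩
    exact hinc w _ _ ⟨h1, hP, h2⟩
  · obtain ⟨v, hv⟩ := Y.sat (α := Nd × (V ⊕ Z))
      ({S | ∃ σ, S = F1 β γ σ} ∪ {S | ∃ μ ν, Inc μ ν ∧ S = F2 α μ ν})
      (by
        rintro S (⟨σ, rfl⟩ | ⟨μ, ν, -, rfl⟩)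
        · exact D_F1 β γ Y hβ hγ σ
        · exact D_F2 α Y hα μ ν)
      (by
        intro Δ hΔ
        -- a bound for the lengths
        have hb : ∀ S ∈ Δ, ∃ n : ℕ, ∀ m, n ≤ m → ∀ v : Nd × (V ⊕ Z) → M,
            (∀ σ : Nd, σ.length ≤ m → v ∈ F1 β γ σ) →
            (∀ μ ν : Nd, μ.length ≤ m → ν.length ≤ m → Inc μ ν → v ∈ F2 α μ ν) → v ∈ S := by
          intro S hS
          rcases hΔ S hS with ⟨σ, rfl⟩ | ⟨μ, ν, hI, rfl⟩
          · exact ⟨σ.length, fun m hm v h1 _ => h1 σ hm⟩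
          · exact ⟨max μ.length ν.length, fun m hm v _ h2 =>
              h2 μ ν ((le_max_left _ _).trans hm) ((le_max_right _ _).trans hm) hI⟩
        choose! n hn using hb
        obtain ⟨v, h1, h2⟩ := fin_tree β α γ hMW (Δ.sup n)
        exact ⟨v, fun S hS => hn S hS _ (Finset.le_sup (f := n) hS) v h1 h2⟩)
    refine ⟨fun τ p => v (τ, p), ?_, ?_⟩
    · intro σ
      obtain ⟨x, hx⟩ := hv (F1 β γ σ) (Or.inl ⟨σ, rfl⟩)
      exact ⟨x, hx⟩
    · intro μ ν hI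
      exact hv (F2 α μ ν) (Or.inr ⟨μ, ν, hI, rfl⟩)

end Pool.Agent.K1H39.PL
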